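import Mathlib
import Pool.Agent.Lib.MP_b05ae9_pr.Final

/-!
# Asymptotic variance of the surface area of random convex hulls in the cube

Dimension `n = m + 2 ≥ 2`. The variance of the surface area `S_n(N)` of the convex hull of `N`
independent uniform points of `[0,1]^n` satisfies `N * Var S_n(N) → c_n`, where
`c_n = 2 n (n - 1) (m₂(n) - m₁(n)^2) > 0` and `m₁(n)`, `m₂(n)` are explicit finite combinations of
integrals of elementary functions. (A hyperplane near a face of codimension two of the cube cuts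
off a cap; after rescaling, the face becomes the `(n-2)`-dimensional face `{0}² × [0,1]^(n-2)` of
`W = [0,∞)² × [0,1]^(n-2)`.)
-/

set_option autoImplicit false

open MeasureTheory ProbabilityTheory Filter Topology Set

namespace Pool.Agent.Results.MP_b05ae9_pr.SurfaceAreaVariance

/-- The affine function of `q` that vanishes on the hyperplane through the `n` points of `I`: the
determinant of the matrix with rows `(1, q), (1, I 0), …, (1, I (n-1))`. -/
noncomputable def F {m : ℕ} (I : Fin (m + 2) → Fin (m + 2) → ℝ) (q : Fin (m + 2) → ℝ) : ℝ :=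
  Matrix.det (Matrix.of fun i j : Fin (m + 3) =>
    (Fin.cons (1 : ℝ) ((Fin.cons q I : Fin (m + 3) → Fin (m + 2) → ℝ) i) : Fin (m + 3) → ℝ) j)

/-- The coefficient of `q_k` in `F I q`. -/
noncomputable def cf {m : ℕ} (I : Fin (m + 2) → Fin (m + 2) → ℝ) (k : Fin (m + 2)) : ℝ :=
  F I (Pi.single k 1) - F I 0

/-- The domain `W = [0,∞)² × [0,1]^(n-2)`. -/
def W (m : ℕ) : Set (Fin (m + 2) → ℝ) :=
  {p | 0 ≤ p 0 ∧ 0 ≤ p 1 ∧ ∀ l : Fin m, 0 ≤ p l.succ.succ ∧ p l.succ.succ ≤ 1}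

/-- The vertex `(0, 0, v)` of `W`. -/
def vert {m : ℕ} (v : Fin m → Fin 2) : Fin (m + 2) → ℝ :=
  Fin.cons 0 (Fin.cons 0 (fun l => ((v l : ℕ) : ℝ)) : Fin (m + 1) → ℝ)

/-- `hgt I v > 0` if and only if the hyperplane through `I` cuts off the vertex `(0, 0, v)`
(provided `cf I 0 ≠ 0`). -/
noncomputable def hgt {m : ℕ} (I : Fin (m + 2) → Fin (m + 2) → ℝ) (v : Fin m → Fin 2) : ℝ :=
  -(cf I 0 * F I (vert v))

/-- For almost all `I` with `0 < cf I 0 * cf I 1`: the volume of the cap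
`{q ∈ W | F I q * cf I 0 < 0}` cut off from `W` by the hyperplane through `I`. -/
noncomputable def capVol {m : ℕ} (I : Fin (m + 2) → Fin (m + 2) → ℝ) : ℝ :=
  (∑ v : Fin m → Fin 2, (-1) ^ (∑ l, (v l : ℕ)) * (max (hgt I v) 0) ^ (m + 2)) /
    ((m + 2).factorial * ∏ l, cf I 0 * cf I l)

/-- `0` and the ratios of the coefficients of two hyperplanes. -/
noncomputable def rt {m : ℕ} (I J : Fin (m + 2) → Fin (m + 2) → ℝ) : Fin (m + 3) → ℝ :=
  Fin.cons 0 (fun l => cf J 0 * cf J l / (cf I 0 * cf I l))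

/-- For almost all `I`, `J` (with `0 < cf I 0 * cf I 1` and `0 < cf J 0 * cf J 1`): the volume of
the intersection of the caps cut off by the hyperplanes through `I` and `J`. -/
noncomputable def capInt {m : ℕ} (I J : Fin (m + 2) → Fin (m + 2) → ℝ) : ℝ :=
  (∑ v : Fin m → Fin 2, (-1) ^ (∑ l, (v l : ℕ)) *
    if 0 < hgt I v then ∑ l : Fin (m + 3), (max (hgt J v - rt I J l * hgt I v) 0) ^ (m + 2) /
      ∏ j ∈ Finset.univ.erase l, (rt I J j - rt I J l) else 0) /
    ((m + 2).factorial * ∏ l, cf I 0 * cf I l)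

/-- For a simplex with vertices `I`, in the limit: the sum of the areas of its projections along
the first two coordinate directions, minus its area. -/
noncomputable def psi {m : ℕ} (I : Fin (m + 2) → Fin (m + 2) → ℝ) : ℝ :=
  if 0 < cf I 0 * cf I 1 then
    (|cf I 0| + |cf I 1| - √(cf I 0 ^ 2 + cf I 1 ^ 2)) / (m + 1).factorial else 0

/-- The first `n` of `n + t` points. -/
def fst {m : ℕ} (t : ℕ) (Y : Fin (m + 2 + t) → Fin (m + 2) → ℝ) : Fin (m + 2) → Fin (m + 2) → ℝ :=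
  fun i => Y (Fin.castAdd t i)

/-- The last `n` of `n + t` points. -/
def lst {m : ℕ} (t : ℕ) (Y : Fin (m + 2 + t) → Fin (m + 2) → ℝ) : Fin (m + 2) → Fin (m + 2) → ℝ :=
  fun i => Y (Fin.cast (Nat.add_comm t (m + 2)) (Fin.natAdd t i))

/-- Tuples of `n` points of `W`. -/
def dom1 (m : ℕ) : Set (Fin (m + 2) → Fin (m + 2) → ℝ) := {I | ∀ i, I i ∈ W m}

/-- Tuples of `n + t` points of `W`, none of which lies in the caps cut off by the hyperplane
through the first `n` and by the one through the last `n` of them. -/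
def dom2 (m t : ℕ) : Set (Fin (m + 2 + t) → Fin (m + 2) → ℝ) :=
  {Y | (∀ k, Y k ∈ W m) ∧ ∀ k, 0 ≤ F (fst t Y) (Y k) * cf (fst t Y) 0 ∧
    0 ≤ F (lst t Y) (Y k) * cf (lst t Y) 0}

/-- The integrand for pairs of facets. -/
noncomputable def g2 {m : ℕ} (t : ℕ) (Y : Fin (m + 2 + t) → Fin (m + 2) → ℝ) : ℝ :=
  psi (fst t Y) * psi (lst t Y) *
    Real.exp (-(capVol (fst t Y) + capVol (lst t Y) - capInt (fst t Y) (lst t Y)))

/-- The number `m₁(n)`. -/
noncomputable def m1 (m : ℕ) : ℝ :=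
  (∫ I in dom1 m, psi I * Real.exp (-capVol I)) / (m + 2).factorial

/-- The number `m₂(n)`. -/
noncomputable def m2 (m : ℕ) : ℝ :=
  (∫ I in dom1 m, psi I ^ 2 * Real.exp (-capVol I)) / (m + 2).factorial +
    ∑ t ∈ Finset.Icc 1 (m + 2),
      (∫ Y in dom2 m t, g2 t Y) / ((m + 2 - t).factorial * (t.factorial) ^ 2)

/-- The constant `c_n = 2 n (n - 1) (m₂(n) - m₁(n)^2)`. -/
noncomputable def c (m : ℕ) : ℝ := 2 * (m + 2) * (m + 1) * (m2 m - m1 m ^ 2)

/-- The uniform law on the cube `[0,1]^n`. -/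
noncomputable def unifCube (n : ℕ) : Measure (EuclideanSpace ℝ (Fin n)) :=
  volume.restrict {x | ∀ i, 0 ≤ x i ∧ x i ≤ 1}

/-- Surface area in `ℝⁿ`: the `(n-1)`-dimensional Hausdorff measure of the boundary. -/
noncomputable def surf {n : ℕ} (K : Set (EuclideanSpace ℝ (Fin n))) : ℝ :=
  ((μHE[n - 1] : Measure (EuclideanSpace ℝ (Fin n))) (frontier K)).toReal

/-- The surface area of the convex hull of `p_0, …, p_{N-1}`. -/
noncomputable def S {n : ℕ} {Ω : Type*} (p : ℕ → Ω → EuclideanSpace ℝ (Fin n)) (N : ℕ) (ω : Ω) :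
    ℝ :=
  surf (convexHull ℝ {x | ∃ i < N, p i ω = x})

theorem F_eq {m : ℕ} (I : Fin (m + 2) → Fin (m + 2) → ℝ) (q : Fin (m + 2) → ℝ) :
    F I q = B05.F I q := rfl

theorem cf_eq {m : ℕ} (I : Fin (m + 2) → Fin (m + 2) → ℝ) (k : Fin (m + 2)) :
    cf I k = B05.cf I k := by
  unfold cf
  rw [F_eq, F_eq, B05.F_affine, B05.F_affine, Finset.sum_eq_single k]
  · simp
  · intro b _ hb
    rw [Pi.single_eq_of_ne hb, mul_zero]
  · intro h
    exact absurd (Finset.mem_univ k) h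

theorem hgt_eq {m : ℕ} (I : Fin (m + 2) → Fin (m + 2) → ℝ) (v : Fin m → Fin 2) :
    hgt I v = B05.bv I v := by
  unfold hgt B05.bv B05.al
  rw [cf_eq, F_eq, B05.F_affine, B05.Lim.sum_fin2]
  have e0 : (vert v : Fin (m + 2) → ℝ) 0 = 0 := rfl
  have e1 : (vert v : Fin (m + 2) → ℝ) 1 = 0 := rfl
  have e2 : ∀ l : Fin m, (vert v : Fin (m + 2) → ℝ) l.succ.succ = ((v l : ℕ) : ℝ) := fun l => rfl
  rw [e0, e1]
  simp only [e2, mul_zero, zero_add, mul_assoc]
  rw [← Finset.mul_sum]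
  ring

theorem capVol_eq {m : ℕ} (I : Fin (m + 2) → Fin (m + 2) → ℝ) : capVol I = B05.capVol I := by
  unfold capVol B05.capVol B05.al
  simp only [hgt_eq, cf_eq]

theorem capInt_eq {m : ℕ} (I J : Fin (m + 2) → Fin (m + 2) → ℝ) :
    capInt I J = B05.capInt I J := by
  have h : rt I J = B05.rt I J := by
    unfold rt B05.rt B05.al
    simp only [cf_eq]
  unfold capInt B05.capInt
  rw [h]
  unfold B05.al
  simp only [hgt_eq, cf_eq]

theorem psi_eq {m : ℕ} (I : Fin (m + 2) → Fin (m + 2) → ℝ) : psi I = B05.psi I := by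
  unfold psi B05.psi
  simp only [cf_eq]

theorem dom1_eq (m : ℕ) : dom1 m = Set.univ.pi fun _ : Fin (m + 2) => B05.W m := by
  ext I
  simp only [dom1, Set.mem_ofPred_eq, Set.mem_pi, mem_univ, forall_true_left]
  rfl

theorem dom2_eq (m t : ℕ) : dom2 m t = B05.dom2 m t := by
  ext Y
  simp only [dom2, B05.dom2, Set.mem_ofPred_eq, mem_inter_iff, Set.mem_pi, mem_univ,
    forall_true_left, cf_eq, F_eq]
  rfl

theorem g2_eq {m : ℕ} (t : ℕ) (Y : Fin (m + 2 + t) → Fin (m + 2) → ℝ) :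
    g2 t Y = B05.psi (B05.fst' t Y) * B05.psi (B05.lst' t Y) *
      Real.exp (-(B05.capVol (B05.fst' t Y) + B05.capVol (B05.lst' t Y) -
        B05.capInt (B05.fst' t Y) (B05.lst' t Y))) := by
  unfold g2
  rw [psi_eq, psi_eq, capVol_eq, capVol_eq, capInt_eq]
  rfl

theorem c_eq (m : ℕ) : c m = B05.cn m := by
  unfold c B05.cn m1 m2 B05.m1 B05.m2 B05.j0 B05.j2
  simp only [psi_eq, capVol_eq, dom1_eq, dom2_eq, g2_eq]

/-- **Main result.** With `n = m + 2`: all the integrals in the definition of `c_n` converge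
absolutely, `c_n > 0`, and for independent uniform points `p_0, p_1, …` of `[0,1]^n` the surface
area `S_n(N)` of the convex hull of the first `N` of them is square integrable and satisfies
`N * Var S_n(N) → c_n`. -/
theorem result (m : ℕ) :
    IntegrableOn (fun I : Fin (m + 2) → Fin (m + 2) → ℝ => psi I * Real.exp (-capVol I))
      (dom1 m) ∧
    IntegrableOn (fun I : Fin (m + 2) → Fin (m + 2) → ℝ => psi I ^ 2 * Real.exp (-capVol I))
      (dom1 m) ∧
    (∀ t, 1 ≤ t → t ≤ m + 2 → IntegrableOn (g2 (m := m) t) (dom2 m t)) ∧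
    0 < c m ∧
    ∀ (Ω : Type*) [MeasurableSpace Ω] (μ : Measure Ω) [IsProbabilityMeasure μ]
      (p : ℕ → Ω → EuclideanSpace ℝ (Fin (m + 2))), (∀ i, Measurable (p i)) →
      iIndepFun p μ → (∀ i, μ.map (p i) = unifCube (m + 2)) →
      (∀ N : ℕ, m + 3 ≤ N → MemLp (S p N) 2 μ) ∧
      Tendsto (fun N : ℕ => (N : ℝ) * variance (S p N) μ) atTop (𝓝 (c m)) := by
  obtain ⟨h1, h2, h3, h4, h5⟩ := B05.final m
  have e : (g2 (m := m)) = fun t Y => B05.psi (B05.fst' t Y) * B05.psi (B05.lst' t Y) *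
      Real.exp (-(B05.capVol (B05.fst' t Y) + B05.capVol (B05.lst' t Y) -
        B05.capInt (B05.fst' t Y) (B05.lst' t Y))) := by
    funext t Y
    exact g2_eq t Y
  rw [c_eq, dom1_eq, e]
  simp only [psi_eq, capVol_eq, dom2_eq]
  exact ⟨h1, h2, h3, h4, fun Ω _ μ _ p hp hi hl => h5 Ω μ p hp hi hl⟩

end Pool.Agent.Results.MP_b05ae9_pr.SurfaceAreaVariance
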